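import Mathlib

set_option autoImplicit false

namespace Pool.Agent.Results.MP_02a275_nt.Main

/-- The 2-kernel of a sequence: all subsequences `n ↦ a (2^e n + r)`, `e ≥ 0`, `0 ≤ r < 2^e`. -/
def kernel (a : ℕ → ℤ) : Set (ℕ → ℤ) :=
  {f | ∃ e r : ℕ, r < 2 ^ e ∧ f = fun n => a (2 ^ e * n + r)}

/-- A sequence is 2-regular if the ℤ-module generated by its 2-kernel is finitely generated. -/
def IsTwoRegular (a : ℕ → ℤ) : Prop := (Submodule.span ℤ (kernel a)).FG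

/-- A two-dimensional array is 2-regular if there is a finite set of arrays such that every
subarray `(m, n) ↦ c (2^e m + r) (2^e n + t)` is a ℤ-linear combination of its members. -/
def IsTwoRegularArray (c : ℕ → ℕ → ℤ) : Prop :=
  ∃ T : Finset (ℕ → ℕ → ℤ), ∀ e r t : ℕ, r < 2 ^ e → t < 2 ^ e →
    (fun m n => c (2 ^ e * m + r) (2 ^ e * n + t)) ∈ Submodule.span ℤ (T : Set (ℕ → ℕ → ℤ))

lemma xor_dec (k A r : ℕ) (hr : r < 2 ^ k) : (2 ^ k * A + r) ^^^ 2 ^ k = 2 ^ k * (A ^^^ 1) + r := by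
  apply Nat.eq_of_testBit_eq
  intro i
  rw [Nat.testBit_xor, Nat.testBit_two_pow_mul_add _ hr, Nat.testBit_two_pow_mul_add _ hr,
    Nat.testBit_two_pow]
  by_cases h : i < k
  · have : k ≠ i := by omega
    simp [h, this]
  · simp only [if_neg h, Nat.testBit_xor]
    congr 1
    by_cases h2 : k = i
    · subst h2; simp
    · simp only [h2, decide_false]
      obtain ⟨m, hm⟩ : ∃ m, i - k = m + 1 := ⟨i - k - 1, by omega⟩
      rw [hm]
      simp [Nat.testBit_succ]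

lemma even_xor (Q : ℕ) : (2 * Q) ^^^ 1 = 2 * Q + 1 := by
  apply Nat.eq_of_testBit_eq
  intro i
  cases i with
  | zero => simp
  | succ i =>
    rw [Nat.testBit_xor, Nat.testBit_succ, Nat.testBit_succ, Nat.testBit_succ]
    have h1 : 2 * Q / 2 = Q := by omega
    have h2 : 1 / 2 = 0 := by norm_num
    have h3 : (2 * Q + 1) / 2 = Q := by omega
    rw [h1, h2, h3]; simp

lemma odd_xor (Q : ℕ) : (2 * Q + 1) ^^^ 1 = 2 * Q := by
  rw [← even_xor Q, Nat.xor_assoc, Nat.xor_self, Nat.xor_zero]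

def aseq (n : ℕ) : ℕ := n ^ 2

def bseq (n : ℕ) : ℕ := 2 ^ Nat.log 2 n

lemma fg_of_subset (K : Set (ℕ → ℤ)) (T : Finset (ℕ → ℤ))
    (h : ∀ f ∈ K, f ∈ Submodule.span ℤ (T : Set (ℕ → ℤ))) : (Submodule.span ℤ K).FG := by
  apply Submodule.FG.of_le (T := Submodule.span ℤ (T : Set (ℕ → ℤ))) ⟨T, rfl⟩
  exact Submodule.span_le.mpr h

lemma aseq_regular : IsTwoRegular (fun n => (aseq n : ℤ)) := by
  classical
  apply fg_of_subset _ ({fun n : ℕ => (n : ℤ) ^ 2, fun n : ℕ => (n : ℤ), fun _ => (1 : ℤ)} :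
    Finset (ℕ → ℤ))
  rintro f ⟨e, r, _, rfl⟩
  have : (fun n => ((aseq (2 ^ e * n + r) : ℕ) : ℤ)) =
      ((2 : ℤ) ^ e * 2 ^ e) • (fun n : ℕ => (n : ℤ) ^ 2) + (2 * 2 ^ e * (r : ℤ)) • (fun n : ℕ => (n : ℤ))
        + ((r : ℤ) ^ 2) • (fun _ : ℕ => (1 : ℤ)) := by
    funext n
    simp only [aseq, Pi.add_apply, Pi.smul_apply, smul_eq_mul]
    push_cast
    ring
  rw [this]
  refine Submodule.add_mem _ (Submodule.add_mem _ ?_ ?_) ?_ <;>
    refine Submodule.smul_mem _ _ (Submodule.subset_span ?_) <;> simp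

lemma bseq_eq (e r n : ℕ) (hr : r < 2 ^ e) (hn : n ≠ 0) : bseq (2 ^ e * n + r) = 2 ^ e * bseq n := by
  unfold bseq
  have h1 : 2 ^ (Nat.log 2 n) ≤ n := Nat.pow_log_le_self 2 hn
  have h2 : n < 2 ^ (Nat.log 2 n + 1) := Nat.lt_pow_succ_log_self (by norm_num) n
  have h3 : Nat.log 2 (2 ^ e * n + r) = e + Nat.log 2 n := by
    apply Nat.log_eq_of_pow_le_of_lt_pow
    · rw [pow_add]
      calc 2 ^ e * 2 ^ Nat.log 2 n ≤ 2 ^ e * n := Nat.mul_le_mul_left _ h1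
        _ ≤ _ := Nat.le_add_right _ _
    · have : 2 ^ (e + Nat.log 2 n + 1) = 2 ^ e * 2 ^ (Nat.log 2 n + 1) := by
        rw [← pow_add]; ring_nf
      rw [this]
      have h4 : 2 ^ e * (n + 1) ≤ 2 ^ e * 2 ^ (Nat.log 2 n + 1) := Nat.mul_le_mul_left _ h2
      calc 2 ^ e * n + r < 2 ^ e * n + 2 ^ e := by omega
        _ = 2 ^ e * (n + 1) := by ring
        _ ≤ _ := h4
  rw [h3, pow_add]

lemma bseq_regular : IsTwoRegular (fun n => (bseq n : ℤ)) := by
  classical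
  apply fg_of_subset _ ({fun n : ℕ => (bseq n : ℤ), fun n : ℕ => if n = 0 then (1 : ℤ) else 0} :
    Finset (ℕ → ℤ))
  rintro f ⟨e, r, hr, rfl⟩
  have : (fun n => ((bseq (2 ^ e * n + r) : ℕ) : ℤ)) =
      ((2 : ℤ) ^ e) • (fun n : ℕ => (bseq n : ℤ))
        + ((bseq r : ℤ) - 2 ^ e) • (fun n : ℕ => if n = 0 then (1 : ℤ) else 0) := by
    funext n
    simp only [Pi.add_apply, Pi.smul_apply, smul_eq_mul]
    by_cases hn : n = 0
    · subst hn
      simp [bseq]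
    · rw [bseq_eq e r n hr hn]
      simp [hn]
  rw [this]
  refine Submodule.add_mem _ ?_ ?_ <;>
    refine Submodule.smul_mem _ _ (Submodule.subset_span ?_) <;> simp

lemma log_val (i j : ℕ) (hi : 2 ≤ i) (_hj : 1 ≤ j) :
    Nat.log 2 (2 ^ j * (2 ^ i + 1) + 1) = i + j := by
  have h1 : 2 ^ j * (2 ^ i + 1) + 1 = 2 ^ (i + j) + 2 ^ j + 1 := by rw [pow_add]; ring
  have h2 : 2 ^ j + 1 < 2 ^ (i + j) := by
    have : 2 ^ (i + j) = 2 ^ i * 2 ^ j := pow_add 2 i j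
    have h3 : 4 ≤ 2 ^ i := by
      calc 4 = 2 ^ 2 := by norm_num
        _ ≤ 2 ^ i := Nat.pow_le_pow_right (by norm_num) hi
    have h4 : 1 ≤ 2 ^ j := Nat.one_le_two_pow
    nlinarith
  rw [h1]
  apply Nat.log_eq_of_pow_le_of_lt_pow
  · have h5 : 0 < 2 ^ j := by positivity
    omega
  · rw [pow_succ]
    have h5 : 0 < 2 ^ j := by positivity
    omega

/-- `w n = n² + 2^⌊log₂ n⌋ - (n² xor 2^⌊log₂ n⌋)` -/
def w (n : ℕ) : ℤ := (aseq n : ℤ) + (bseq n : ℤ) - ((aseq n ^^^ bseq n : ℕ) : ℤ)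

lemma w_zero (i d : ℕ) (hi : 2 ≤ i) : w (2 ^ (i + d + 1) * (2 ^ i + 1) + 1) = 0 := by
  obtain ⟨i', rfl⟩ : ∃ i', i = i' + 2 := ⟨i - 2, by omega⟩
  have hlog := log_val (i' + 2) (i' + 2 + d + 1) hi (by omega)
  unfold w bseq
  rw [hlog]
  set k := i' + 2 + (i' + 2 + d + 1) with hk
  set r := 2 ^ (i' + 2 + d + 1 + 1) + 1 with hr
  have hrk : r < 2 ^ k := by
    have h1 : 2 ^ k = 2 ^ (i' + 2 + d + 1 + 1) * 2 ^ (i' + 1) := by
      rw [← pow_add]; congr 1; omega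
    have h2 : 2 ≤ 2 ^ (i' + 1) := by
      calc 2 = 2 ^ 1 := by norm_num
        _ ≤ 2 ^ (i' + 1) := Nat.pow_le_pow_right (by norm_num) (by omega)
    have h3 : 2 ≤ 2 ^ (i' + 2 + d + 1 + 1) := by
      calc 2 = 2 ^ 1 := by norm_num
        _ ≤ 2 ^ (i' + 2 + d + 1 + 1) := Nat.pow_le_pow_right (by norm_num) (by omega)
    rw [hr, h1]
    nlinarith
  have hA : aseq (2 ^ (i' + 2 + d + 1) * (2 ^ (i' + 2) + 1) + 1)
      = 2 ^ k * (2 * (2 ^ (2 * i' + d + 4) + 2 ^ (i' + 2 + d + 1) + 2 ^ d + 1)) + r := by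
    unfold aseq
    rw [hr, hk]
    ring
  rw [hA, xor_dec k _ r hrk, even_xor]
  push_cast
  ring

lemma w_ne (i : ℕ) (hi : 2 ≤ i) : w (2 ^ i * (2 ^ i + 1) + 1) ≠ 0 := by
  obtain ⟨i', rfl⟩ : ∃ i', i = i' + 2 := ⟨i - 2, by omega⟩
  have hlog := log_val (i' + 2) (i' + 2) hi (by omega)
  unfold w bseq
  rw [hlog]
  set k := i' + 2 + (i' + 2) with hk
  set r := 2 ^ (i' + 2 + 1) + 1 with hr
  have hrk : r < 2 ^ k := by
    have h1 : 2 ^ k = 2 ^ (i' + 2 + 1) * 2 ^ (i' + 1) := by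
      rw [← pow_add]; congr 1; omega
    have h2 : 2 ≤ 2 ^ (i' + 1) := by
      calc 2 = 2 ^ 1 := by norm_num
        _ ≤ 2 ^ (i' + 1) := Nat.pow_le_pow_right (by norm_num) (by omega)
    have h3 : 2 ≤ 2 ^ (i' + 2 + 1) := by
      calc 2 = 2 ^ 1 := by norm_num
        _ ≤ 2 ^ (i' + 2 + 1) := Nat.pow_le_pow_right (by norm_num) (by omega)
    rw [hr, h1]
    nlinarith
  have hA : aseq (2 ^ (i' + 2) * (2 ^ (i' + 2) + 1) + 1)
      = 2 ^ k * (2 * (2 ^ (2 * i' + 3) + 2 ^ (i' + 2) + 1) + 1) + r := by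
    unfold aseq
    rw [hr, hk]
    ring
  rw [hA, xor_dec k _ r hrk, odd_xor]
  push_cast
  have : (0 : ℤ) < 2 ^ k := by positivity
  intro h
  nlinarith

lemma xor_not_regular : ¬ IsTwoRegular (fun n => ((aseq n ^^^ bseq n : ℕ) : ℤ)) := by
  intro hreg
  set P := Submodule.span ℤ (kernel (fun n => (aseq n : ℤ))) ⊔
    Submodule.span ℤ (kernel (fun n => (bseq n : ℤ))) ⊔
    Submodule.span ℤ (kernel (fun n => ((aseq n ^^^ bseq n : ℕ) : ℤ))) with hP
  have hPfg : P.FG := (aseq_regular.sup bseq_regular).sup hreg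
  have hmem : ∀ j : ℕ, (fun n => w (2 ^ (j + 2) * n + 1)) ∈ P := by
    intro j
    have hlt : 1 < 2 ^ (j + 2) := Nat.one_lt_two_pow (by omega)
    have e : (fun n => w (2 ^ (j + 2) * n + 1)) =
        (fun n => (aseq (2 ^ (j + 2) * n + 1) : ℤ)) + (fun n => (bseq (2 ^ (j + 2) * n + 1) : ℤ))
        - (fun n => ((aseq (2 ^ (j + 2) * n + 1) ^^^ bseq (2 ^ (j + 2) * n + 1) : ℕ) : ℤ)) := rfl
    rw [e]
    refine Submodule.sub_mem _ (Submodule.add_mem _ ?_ ?_) ?_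
    · exact Submodule.mem_sup_left (Submodule.mem_sup_left
        (Submodule.subset_span ⟨j + 2, 1, hlt, rfl⟩))
    · exact Submodule.mem_sup_left (Submodule.mem_sup_right
        (Submodule.subset_span ⟨j + 2, 1, hlt, rfl⟩))
    · exact Submodule.mem_sup_right (Submodule.subset_span ⟨j + 2, 1, hlt, rfl⟩)
  have hfin : Module.Finite ℤ P := Module.Finite.of_fg hPfg
  have hli : LinearIndependent ℤ (fun j : ℕ => (⟨_, hmem j⟩ : P)) := by
    rw [linearIndependent_iff']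
    intro s g hsum
    have hsum' : ∀ m : ℕ, ∑ j ∈ s, g j * w (2 ^ (j + 2) * m + 1) = 0 := by
      intro m
      have := congrArg (fun x : P => (x : ℕ → ℤ) m) hsum
      simpa using this
    intro i
    induction i using Nat.strong_induction_on with
    | _ i ih =>
      intro hi
      have h1 := hsum' (2 ^ (i + 2) + 1)
      have h2 : ∑ j ∈ s, g j * w (2 ^ (j + 2) * (2 ^ (i + 2) + 1) + 1)
          = g i * w (2 ^ (i + 2) * (2 ^ (i + 2) + 1) + 1) := by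
        apply Finset.sum_eq_single_of_mem i hi
        intro j hj hji
        rcases lt_or_gt_of_ne hji with h | h
        · rw [ih j h hj, zero_mul]
        · obtain ⟨d, rfl⟩ : ∃ d, j = i + d + 1 := ⟨j - i - 1, by omega⟩
          have h3 := w_zero (i + 2) d (by omega)
          have h4 : i + d + 1 + 2 = i + 2 + d + 1 := by omega
          rw [h4, h3, mul_zero]
      rw [h2] at h1
      exact (mul_eq_zero.mp h1).resolve_right (w_ne (i + 2) (by omega))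
  exact Module.Finite.not_linearIndependent_of_infinite _ hli

lemma array_not_regular : ¬ IsTwoRegularArray (fun i j => ((aseq i ^^^ bseq j : ℕ) : ℤ)) := by
  classical
  rintro ⟨T, hT⟩
  apply xor_not_regular
  let D : (ℕ → ℕ → ℤ) →ₗ[ℤ] (ℕ → ℤ) :=
    { toFun := fun c n => c n n
      map_add' := fun _ _ => rfl
      map_smul' := fun _ _ => rfl }
  apply fg_of_subset _ (T.image D)
  rintro f ⟨e, r, hr, rfl⟩
  have h1 := hT e r r hr hr
  have h2 := Submodule.mem_map_of_mem (f := D) h1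
  rw [Submodule.map_span] at h2
  rw [Finset.coe_image]
  exact h2

/-- Nim sums of 2-regular sequences: a negative answer to Q1 and to Q2. -/
theorem result : ∃ a b : ℕ → ℕ,
    IsTwoRegular (fun n => (a n : ℤ)) ∧ IsTwoRegular (fun n => (b n : ℤ)) ∧
    ¬ IsTwoRegular (fun n => ((a n ^^^ b n : ℕ) : ℤ)) ∧
    ¬ IsTwoRegularArray (fun i j => ((a i ^^^ b j : ℕ) : ℤ)) :=
  ⟨aseq, bseq, aseq_regular, bseq_regular, xor_not_regular, array_not_regular⟩

end Pool.Agent.Results.MP_02a275_nt.Main
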